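import Pool.Agent.H15.G.R_seed8.TH102.DP.Tube
import Pool.Agent.H15.G.R_seed8.TH603.Sur.Flat

/-! A group of `k` points of multiplicity `l` in the corner of a lattice triangle. -/

set_option autoImplicit false

namespace Pool.Agent.Y839.FW

open Finset Pool.Agent.TH176.Nag Pool.Agent.TH603.Sur

/-- the region between the two triangles, after the flattening -/
def QR (Y H X L : ℝ) (k : ℕ) : Set (ℤ × ℤ) :=
  {m | 0 < m.2 ∧ -(Y * (H - m.2)) + k * max 0 (L - m.2) < (m.1 : ℝ) ∧ (m.1 : ℝ) < X * (H - m.2)}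

theorem sum_sub (l : ℕ) : ∑ s ∈ range l, (l - s) = (l + 1).choose 2 := by
  induction l with
  | zero => simp
  | succ l ih =>
    rw [sum_range_succ']
    have h1 : ∑ s ∈ range l, (l + 1 - (s + 1)) = ∑ s ∈ range l, (l - s) :=
      sum_congr rfl fun s _ => by omega
    have h2 : (l + 1 + 1).choose 2 = (l + 1) + (l + 1).choose 2 := by
      rw [Nat.choose_succ_succ' (l + 1) 1, Nat.choose_one_right]
    rw [h1, ih, h2]
    omega

/-- step 1: flattening -/
theorem flatQ {κ : Type} [Fintype κ] {w : κ → ℕ} {k : ℕ} {L H X Y Z : ℝ} (hk : 1 ≤ k) (hL0 : 0 < L)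
    (hLH : L < H) (hX : 0 < X) (hY : Y = k * L / H) (hZ : Z = k * L * (H - L) / H ^ 2)
    (h : Sur w (RegO (-(Z * H)) (X * H) Z X)) : Sur w (QR Y H X L k) := by
  have hkR : (1 : ℝ) ≤ k := by exact_mod_cast hk
  have hH : 0 < H := hL0.trans hLH
  have hHL : 0 < H - L := by linarith
  have hY0 : 0 < Y := by rw [hY]; positivity
  have hZ0 : 0 < Z := by rw [hZ]; positivity
  have hsh : Sur w {p : ℤ × ℤ | 0 ≤ p.2 ∧ (p.1, p.2 + 1) ∈ RegO (-(Z * H)) (X * H) Z X} := by
    refine h.shift 0 1 ?_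
    rintro ⟨a, b⟩ hab
    have h3 := hab.1
    simp only at h3
    refine ⟨by simp only; omega, ?_⟩
    simpa using hab
  refine Sur_flat0 ?_ hsh
  rintro ⟨p, j'⟩ ⟨hj0, h1, h2, h3⟩
  simp only at hj0 h1 h2 h3
  push_cast at h2 h3
  refine ⟨hj0, ?_⟩
  simp only
  obtain ⟨j, rfl⟩ : ∃ j : ℕ, j' = (j : ℤ) := ⟨j'.toNat, by omega⟩
  have hj : (0 : ℝ) ≤ j := Nat.cast_nonneg j
  push_cast at h2 h3
  have hjH : (j : ℝ) + 1 < H := by
    have h4 : 0 < (X + Z) * (H - (j + 1)) := by linarith
    have := ppos h4 (by linarith)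
    linarith
  rcases le_or_gt 0 p with hp | hp
  · have hpR : (0 : ℝ) ≤ p := by exact_mod_cast hp
    refine ⟨Icc 1 ((j : ℤ) + 1), ?_, ?_⟩
    · rw [Int.card_Icc]
      omega
    · intro t ht
      rw [mem_Icc] at ht
      have ht1 : (1 : ℝ) ≤ t := by exact_mod_cast ht.1
      have ht2 : (t : ℝ) ≤ j + 1 := by exact_mod_cast ht.2
      refine ⟨by simp only; omega, ?_, ?_⟩
      · simp only
        refine lt_of_lt_of_le ?_ hpR
        rcases le_total (L - t) 0 with h5 | h5
        · rw [max_eq_left h5, mul_zero, add_zero]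
          have : 0 < Y * (H - t) := mul_pos hY0 (by linarith)
          linarith
        · rw [max_eq_right h5]
          have e : -(Y * (H - t)) + k * (L - t) = -(k * t * ((H - L) / H)) := by
            rw [hY]
            field_simp
            ring
          rw [e]
          have : 0 < k * t * ((H - L) / H) := by positivity
          linarith
      · simp only
        have : X * (H - (j + 1)) ≤ X * (H - t) := mul_le_mul_of_nonneg_left (by linarith) hX.le
        linarith
  · have hpR : (p : ℝ) < 0 := by exact_mod_cast hp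
    obtain ⟨q, hq⟩ : ∃ q : ℝ, q = -(p : ℝ) := ⟨_, rfl⟩
    have hq0 : 0 < q := by rw [hq]; linarith
    obtain ⟨t1, ht1⟩ : ∃ t1 : ℝ, t1 = q * H / (k * (H - L)) := ⟨_, rfl⟩
    obtain ⟨t2, ht2⟩ : ∃ t2 : ℝ, t2 = H - q / Y := ⟨_, rfl⟩
    have ht10 : 0 < t1 := by rw [ht1]; positivity
    have hd : t2 - t1 = H - q / Z := by
      rw [ht1, ht2, hY, hZ]
      field_simp
      ring
    have hdj : (j : ℝ) + 1 < t2 - t1 := by
      rw [hd]
      have h5 : q < (H - (j + 1)) * Z := by rw [hq]; linarith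
      rw [← div_lt_iff₀ hZ0] at h5
      linarith
    refine ⟨Icc (⌊t1⌋ + 1) (⌊t1⌋ + ((j : ℤ) + 1)), ?_, ?_⟩
    · rw [Int.card_Icc]
      omega
    · intro t ht
      rw [mem_Icc] at ht
      have h5 : t1 < t := by
        have h6 := Int.lt_floor_add_one t1
        have h7 : ((⌊t1⌋ : ℤ) : ℝ) + 1 ≤ t := by exact_mod_cast ht.1
        linarith
      have h6 : (t : ℝ) < t2 := by
        have h6 := Int.floor_le t1
        have h7 : (t : ℝ) ≤ ((⌊t1⌋ : ℤ) : ℝ) + (j + 1) := by exact_mod_cast ht.2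
        linarith
      have ht0 : (0 : ℝ) < t := ht10.trans h5
      have hc1 : -(k * t * ((H - L) / H)) < (p : ℝ) := by
        rw [ht1, div_lt_iff₀ (by positivity)] at h5
        have e : k * t * ((H - L) / H) = (t * (k * (H - L))) / H := by ring
        rw [e]
        rw [← lt_div_iff₀ hH] at h5
        linarith
      have hc2 : -(Y * (H - t)) < (p : ℝ) := by
        have h7 : q / Y < H - t := by linarith
        rw [div_lt_iff₀ hY0] at h7
        linarith
      refine ⟨by simp only; exact_mod_cast ht0, ?_, ?_⟩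
      · simp only
        rcases le_total (L - t) 0 with h7 | h7
        · rw [max_eq_left h7, mul_zero, add_zero]
          exact hc2
        · rw [max_eq_right h7]
          have e : -(Y * (H - t)) + k * (L - t) = -(k * t * ((H - L) / H)) := by
            rw [hY]
            field_simp
            ring
          rw [e]
          exact hc1
      · simp only
        have : 0 < q / Y := by positivity
        have : 0 < X * (H - t) := mul_pos hX (by linarith)
        linarith

/-- step 2: absorbing a group of points -/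
theorem absorbQ {κ : Type} [Fintype κ] {w : κ → ℕ} {k l : ℕ} {H X Y : ℝ} (hk : 1 ≤ k)
    (hLH : (l : ℝ) + 1 < H) (hX : 0 < X) (hY : Y = k * ((l : ℝ) + 1) / H)
    (h : Sur w (QR Y H X ((l : ℝ) + 1) k)) :
    Sur (Sum.elim (fun _ : Fin k => l) w) (RegO (-(Y * H)) (X * H) Y X) := by
  classical
  have hkR : (1 : ℝ) ≤ k := by exact_mod_cast hk
  have hl0 : (0 : ℝ) ≤ l := Nat.cast_nonneg l
  have hH : 0 < H := by linarith
  have hHL : 0 < H - ((l : ℝ) + 1) := by linarith
  have hY0 : 0 < Y := by rw [hY]; positivity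
  obtain ⟨T, hTQ, hTc, hTE⟩ := h
  obtain ⟨α, hα⟩ : ∃ α : ℤ → ℤ, ∀ t, α t = ⌊-(Y * (H - t))⌋ + 1 := ⟨_, fun _ => rfl⟩
  have hαlt : ∀ (t a : ℤ), α t ≤ a ↔ -(Y * (H - t)) < (a : ℝ) := by
    intro t a
    rw [hα, Int.add_one_le_iff, Int.floor_lt]
  obtain ⟨f, hf⟩ : ∃ f : (Σ _ : ℕ, ℕ) → ℤ × ℤ, ∀ x, f x = (α ((x.1 : ℤ) + 1) + x.2, (x.1 : ℤ) + 1) :=
    ⟨_, fun _ => rfl⟩
  have hfi : Function.Injective f := by
    rintro ⟨s, i⟩ ⟨s', i'⟩ h
    rw [hf, hf, Prod.mk.injEq] at h
    simp only at h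
    obtain ⟨h1, h2⟩ := h
    have h3 : s = s' := by omega
    subst h3
    have h4 : i = i' := by omega
    rw [h4]
  obtain ⟨A, hA⟩ : ∃ A : Finset (ℤ × ℤ), A = ((range l).sigma fun s => range (k * (l - s))).image f :=
    ⟨_, rfl⟩
  have hAc : A.card = k * (l + 1).choose 2 := by
    rw [hA, card_image_of_injective _ hfi, card_sigma, ← sum_sub, mul_sum]
    simp only [card_range]
  have hAm : ∀ m : ℤ × ℤ, m ∈ A ↔ 1 ≤ m.2 ∧ m.2 ≤ l ∧ α m.2 ≤ m.1 ∧
      m.1 < α m.2 + k * (l + 1 - m.2) := by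
    rintro ⟨a, b⟩
    rw [hA, mem_image]
    constructor
    · rintro ⟨⟨s, i⟩, h1, h2⟩
      rw [mem_sigma, mem_range, mem_range] at h1
      simp only at h1
      rw [hf, Prod.mk.injEq] at h2
      simp only at h2
      obtain ⟨h2, h3⟩ := h2
      simp only
      have h4 : ((l - s : ℕ) : ℤ) = (l : ℤ) + 1 - b := by omega
      have h5 : (i : ℤ) < k * ((l : ℤ) + 1 - b) := by
        rw [← h4]
        exact_mod_cast h1.2
      rw [h3] at h2
      exact ⟨by omega, by omega, by omega, by omega⟩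
    · rintro ⟨h1, h2, h3, h4⟩
      simp only at h1 h2 h3 h4
      refine ⟨⟨(b - 1).toNat, (a - α b).toNat⟩, ?_, ?_⟩
      · rw [mem_sigma, mem_range, mem_range]
        simp only
        refine ⟨by omega, ?_⟩
        have h5 : ((l - (b - 1).toNat : ℕ) : ℤ) = (l : ℤ) + 1 - b := by omega
        have h6 : (((a - α b).toNat : ℕ) : ℤ) < ((k * (l - (b - 1).toNat) : ℕ) : ℤ) := by
          rw [Nat.cast_mul, h5]
          omega
        exact_mod_cast h6
      · rw [hf, Prod.mk.injEq]
        simp only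
        have h5 : (((b - 1).toNat : ℕ) : ℤ) + 1 = b := by omega
        rw [h5]
        exact ⟨by omega, rfl⟩
  have hdisj : Disjoint T A := by
    rw [disjoint_left]
    intro m hm hmA
    obtain ⟨h1, h2, h3, h4⟩ := (hAm m).1 hmA
    obtain ⟨h5, h6, h7⟩ := hTQ (mem_coe.2 hm)
    have h8 : (m.1 : ℝ) + 1 ≤ (α m.2 : ℝ) + k * (l + 1 - m.2) := by exact_mod_cast h4
    have h9 : (α m.2 : ℝ) ≤ -(Y * (H - m.2)) + 1 := by
      rw [hα]
      push_cast
      linarith [Int.floor_le (-(Y * (H - m.2)))]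
    have h10 := mul_le_mul_of_nonneg_left (le_max_right (0 : ℝ) ((l : ℝ) + 1 - m.2))
      (show (0 : ℝ) ≤ k by linarith)
    linarith
  refine ⟨T ∪ A, ?_, ?_, ?_⟩
  · intro m hm
    rw [mem_coe, mem_union] at hm
    rcases hm with hm | hm
    · obtain ⟨h5, h6, h7⟩ := hTQ (mem_coe.2 hm)
      have h10 : 0 ≤ (k : ℝ) * max (0 : ℝ) ((l : ℝ) + 1 - m.2) :=
        mul_nonneg (by linarith) (le_max_left _ _)
      exact ⟨h5, by linarith, by linarith⟩
    · obtain ⟨h1, h2, h3, h4⟩ := (hAm m).1 hm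
      have h5 := (hαlt _ _).1 h3
      have h8 : (m.1 : ℝ) + 1 ≤ (α m.2 : ℝ) + k * (l + 1 - m.2) := by exact_mod_cast h4
      have h9 : (α m.2 : ℝ) ≤ -(Y * (H - m.2)) + 1 := by
        rw [hα]
        push_cast
        linarith [Int.floor_le (-(Y * (H - m.2)))]
      have h1R : (1 : ℝ) ≤ m.2 := by exact_mod_cast h1
      have h2R : (m.2 : ℝ) ≤ l := by exact_mod_cast h2
      have e : -(Y * (H - m.2)) + k * ((l : ℝ) + 1 - m.2) =
          -(k * m.2 * ((H - ((l : ℝ) + 1)) / H)) := by
        rw [hY]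
        field_simp
        ring
      have h10 : 0 < k * (m.2 : ℝ) * ((H - ((l : ℝ) + 1)) / H) := by positivity
      have h11 : 0 < X * (H - m.2) := mul_pos hX (by linarith)
      exact ⟨by omega, by linarith, by linarith⟩
  · rw [card_union_of_disjoint hdisj, hTc, hAc]
    unfold Pool.Agent.TH603.Sur.cond
    rw [Fintype.sum_sum_type]
    simp only [Sum.elim_inl, Sum.elim_inr, sum_const, card_univ, Fintype.card_fin, smul_eq_mul]
    ring
  · -- emptiness
    have hTs : Emp w {m : ℤ × ℤ | ((m.1, m.2 + 1) : ℤ × ℤ) ∈ T} := by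
      refine hTE.comap 1 0 0 1 0 1 (by norm_num) ?_
      rintro ⟨a, b⟩ hm
      simpa using hm
    have hinj : Function.Injective (fun m : ℤ × ℤ => ((m.1, m.2 + 1) : ℤ × ℤ)) := by
      rintro ⟨a, b⟩ ⟨a', b'⟩ h
      simp only [Prod.mk.injEq] at h
      ext
      · exact h.1
      · simp only; omega
    have hE := Pool.Agent.TH102.DP.Emp_absorbs hTs k (fun _ => l)
      {m : ℤ × ℤ | ((m.1, m.2 + 1) : ℤ × ℤ) ∈ T ∪ A}
      (((T ∪ A).finite_toSet).preimage hinj.injOn) (by
        rintro ⟨a, b⟩ hm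
        simp only [Set.mem_ofPred_eq, mem_union] at hm ⊢
        rcases hm with hm | hm
        · have := (hTQ (mem_coe.2 hm)).1
          simp only at this
          omega
        · have := ((hAm _).1 hm).1
          simp only at this
          omega) (fun t => α (t + 1)) (by
        rintro ⟨a, b⟩ hm
        simp only [Set.mem_ofPred_eq, mem_union] at hm ⊢
        rcases hm with hm | hm
        · obtain ⟨h5, h6, h7⟩ := hTQ (mem_coe.2 hm)
          rw [hαlt]
          simp only at h6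
          have h10 : 0 ≤ (k : ℝ) * max (0 : ℝ) ((l : ℝ) + 1 - ((b + 1 : ℤ) : ℝ)) :=
            mul_nonneg (by linarith) (le_max_left _ _)
          linarith
        · exact ((hAm _).1 hm).2.2.1) (by
        rintro ⟨a, b⟩ hm hle
        simp only [Set.mem_ofPred_eq, mem_union] at hm hle ⊢
        rcases hm with hm | hm
        · exact hm
        · exfalso
          obtain ⟨h1, h2, h3, h4⟩ := (hAm _).1 hm
          simp only at h1 h2 h3 h4
          rw [sum_const, card_univ, Fintype.card_fin, max_eq_right (by omega), nsmul_eq_mul] at hle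
          have e : (l : ℤ) + 1 - (b + 1) = l - b := by ring
          rw [e] at h4
          omega)
    refine hE.comap 1 0 0 1 0 (-1) (by norm_num) ?_
    rintro ⟨a, b⟩ hm
    simpa using hm

end Pool.Agent.Y839.FW
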