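import Pool.Agent.H15.G.R_seed8.Y205.FW.Defs
import Pool.Agent.H15.G.R_seed8.Y839.FW.CornerCore

/-! A group of `k` points of multiplicity `l` in the corner of a lattice triangle. -/

set_option autoImplicit false

namespace Pool.Agent.Y839.FW

open Finset Pool.Agent.TH176.Nag Pool.Agent.TH603.Sur

theorem corner : Pool.Agent.Y205.FW.StCorner := by
  intro κ _ w k l H X hk hl hX h
  have hl0 : (0 : ℝ) ≤ l := Nat.cast_nonneg l
  exact absorbQ hk hl hX rfl (flatQ hk (by linarith) hl hX rfl rfl h)

end Pool.Agent.Y839.FW
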